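import Pool.Agent.HIK.Stmts

/-! HIK, module CLS: few integral points in one residue class. -/

set_option autoImplicit false

namespace Pool.Agent.HIK.H10

open Polynomial NumberField Matrix Pool.Agent.MTL Pool.Agent.HIK

theorem eval_toK {K : Type} [Field K] [NumberField K] (g : (𝓞 K)[X][X]) (a y : 𝓞 K) (P : K[X])
    (hP : P.eval (a : K) = y) :
    ((toK K g).eval P).eval (a : K) = ((evalEval a y g : 𝓞 K) : K) := by
  have h1 : ((toK K g).eval P).eval (a : K) = evalEval (a : K) (y : K) (toK K g) := by
    unfold evalEval
    rw [← coe_evalRingHom, ← eval₂_hom, ← eval₂_hom]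
    simp [hP]
  rw [h1]
  exact map_mapRingHom_evalEval (algebraMap (𝓞 K) K) a y (p := g)

theorem natDegree_eval_toK_le {K : Type} [Field K] [NumberField K] (g : (𝓞 K)[X][X]) (N : ℕ)
    (P : K[X]) (hP : P.natDegree ≤ N) :
    ((toK K g).eval P).natDegree ≤ degBoundK g N := by
  have hd : (toK K g).natDegree ≤ g.natDegree := natDegree_map_le
  rw [eval_eq_sum_range' (n := g.natDegree + 1) (by omega)]
  refine natDegree_sum_le_of_forall_le _ _ fun k hk => ?_
  rw [Finset.mem_range] at hk
  refine natDegree_mul_le.trans ?_
  refine add_le_add ?_ ?_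
  · have h1 : ((toK K g).coeff k).natDegree ≤ (g.coeff k).natDegree := by
      simp only [toK, coeff_map, coe_mapRingHom]
      exact natDegree_map_le
    refine h1.trans ?_
    exact Finset.single_le_sum (f := fun k => (g.coeff k).natDegree) (fun _ _ => Nat.zero_le _)
      (Finset.mem_range.2 hk)
  · refine natDegree_pow_le.trans ?_
    exact Nat.mul_le_mul (by omega) hP

theorem map_interp {K : Type} [Field K] [NumberField K] (N : ℕ) (a y : Fin (N + 1) → 𝓞 K) :
    (((interpMatK N a y).det : 𝓞 K) : K) =
      (interpMatK N (fun i => (a i : K)) (fun i => (y i : K))).det := by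
  have h := RingHom.map_det (algebraMap (𝓞 K) K) (interpMatK N a y)
  refine h.trans ?_
  congr 1
  ext i k
  simp only [interpMatK, RingHom.mapMatrix_apply, Matrix.map_apply, Matrix.of_apply]
  split_ifs
  · exact map_pow _ _ _
  · rfl

theorem eq_zero_of_house {K : Type} [Field K] [NumberField K] (m : ℕ) (d : 𝓞 K)
    (hd : (m : 𝓞 K) ∣ d) (h : house (d : K) < m) : d = 0 := by
  obtain ⟨w, hw⟩ := hd
  by_contra hne
  have hw0 : w ≠ 0 := by
    rintro rfl
    exact hne (by rw [hw, mul_zero])
  have hwK : (w : K) ≠ 0 := by
    intro h0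
    exact hw0 (by exact_mod_cast h0)
  have h1 : 1 ≤ house (w : K) := one_le_house_of_isIntegral w.2 hwK
  have h2 : (d : K) = (m : K) * (w : K) := by
    rw [hw]
    push_cast
    rfl
  rw [h2, house_nat_mul] at h
  have h3 : (0 : ℝ) ≤ m := Nat.cast_nonneg m
  nlinarith

theorem cls (hT : TayStmt) (hD : DvdStmt) (hH : HseStmt) (hI : IntStmt) : ClsStmt := by
  classical
  intro K _ _ g hg p hp a0 y0 n0 N T Y hN hnT h0 h1 hbig S y hST hSt hSy hroot hY
  obtain ⟨v, hv⟩ := h1
  obtain ⟨c, hc⟩ := hT (𝓞 K) g (p : 𝓞 K) (a0 + n0) y0 v h0 hv N hN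
  by_contra hcard
  rw [not_le] at hcard
  -- choose `N` points
  obtain ⟨S0, hS0, hS0c⟩ := Finset.exists_subset_card_eq (s := S) (n := N) (by omega)
  let e : Fin N ↪o ℕ := S0.orderEmbOfFin hS0c
  have heS : ∀ i, e i ∈ S := fun i => hS0 (S0.orderEmbOfFin_mem hS0c i)
  -- the parameter in `K`
  let q : ℕ → K := fun n => (a0 : K) + n
  have hq : ∀ n : ℕ, ((a0 + (n : 𝓞 K) : 𝓞 K) : K) = q n := by
    intro n
    push_cast
    rfl
  have hqinj : Function.Injective q := by
    intro m n hmn
    have : (m : K) = n := add_left_cancel hmn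
    exact_mod_cast this
  -- interpolation polynomial
  let P : K[X] := Lagrange.interpolate Finset.univ (fun i : Fin N => q (e i))
    (fun i => ((y (e i) : 𝓞 K) : K))
  have hinj : Set.InjOn (fun i : Fin N => q (e i)) (Finset.univ : Finset (Fin N)) := by
    intro i _ j _ hij
    exact e.injective (hqinj hij)
  have hPdeg : P.degree < N := by
    have := Lagrange.degree_interpolate_lt (fun i : Fin N => ((y (e i) : 𝓞 K) : K)) hinj
    rwa [Finset.card_univ, Fintype.card_fin] at this
  have hPe : ∀ i : Fin N, P.eval (q (e i)) = y (e i) := by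
    intro i
    exact Lagrange.eval_interpolate_at_node _ hinj (Finset.mem_univ i)
  -- every point of `S` is on `P`
  have hall : ∀ a ∈ S, P.eval (q a) = y a := by
    intro a ha
    by_cases hae : ∃ i, e i = a
    · obtain ⟨i, rfl⟩ := hae
      exact hPe i
    · push Not at hae
      let av : Fin (N + 1) → ℕ := Fin.lastCases a (fun i => e i)
      have hav : ∀ i, av i ∈ S := by
        intro i
        refine Fin.lastCases ?_ (fun k => ?_) i
        · simpa [av] using ha
        · simpa [av] using heS k
      have hb : ∀ i, ∃ b : ℤ, (av i : ℤ) - n0 = p * b := by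
        intro i
        exact hSt (av i) (hav i)
      choose b hb using hb
      have hbO : ∀ i, ((av i : ℕ) : 𝓞 K) - (n0 : 𝓞 K) = (p : 𝓞 K) * (b i : 𝓞 K) := by
        intro i
        have h := congrArg (fun z : ℤ => (z : 𝓞 K)) (hb i)
        push_cast at h
        exact h
      have hdvd : (p : 𝓞 K) ^ (N * (N + 1) / 2) ∣
          (interpMatK N (fun i => (p : 𝓞 K) * (b i : 𝓞 K)) (fun i => y (av i))).det := by
        refine hD (𝓞 K) N (p : 𝓞 K) (fun i => (b i : 𝓞 K)) (fun i => y (av i)) c fun i => ?_
        refine hc (b i) (y (av i)) (hSy _ (hav i)) ?_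
        have h2 : a0 + (n0 : 𝓞 K) + (p : 𝓞 K) * (b i : 𝓞 K) = a0 + ((av i : ℕ) : 𝓞 K) := by
          rw [← hbO i]
          ring
        rw [h2]
        exact hroot _ (hav i)
      have hle := hH K N (fun i => (((p : 𝓞 K) * (b i : 𝓞 K) : 𝓞 K) : K))
        (fun i => ((y (av i) : 𝓞 K) : K)) T Y (fun i => by
          have h2 : (((p : 𝓞 K) * (b i : 𝓞 K) : 𝓞 K) : K) = (((av i : ℤ) - n0 : ℤ) : K) := by
            rw [← hbO i]
            push_cast
            rfl
          rw [h2, house_intCast]
          have h3 : |(av i : ℤ) - n0| ≤ (T : ℤ) := by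
            have := hST _ (hav i)
            rw [abs_le]
            constructor <;> omega
          exact_mod_cast h3) (fun i => hY _ (hav i))
      have hdet0 : (interpMatK N (fun i => (p : 𝓞 K) * (b i : 𝓞 K)) (fun i => y (av i))).det
          = 0 := by
        refine eq_zero_of_house (p ^ (N * (N + 1) / 2)) _ ?_ ?_
        · push_cast
          exact hdvd
        · rw [map_interp]
          refine lt_of_le_of_lt hle ?_
          exact_mod_cast hbig
      have hdetK : (interpMatK N (fun i => q (av i) - q n0) (fun i => ((y (av i) : 𝓞 K) : K))).det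
          = 0 := by
        have h2 : (fun i => q (av i) - q n0) =
            (fun i => (((p : 𝓞 K) * (b i : 𝓞 K) : 𝓞 K) : K)) := by
          funext i
          rw [← hbO i]
          push_cast
          simp only [q]
          ring
        rw [h2, ← map_interp, hdet0]
        rfl
      have hinj' : Function.Injective (fun i => q (av i)) := by
        intro i j hij
        have h3 : av i = av j := hqinj hij
        revert h3
        refine Fin.lastCases ?_ (fun k => ?_) i <;> refine Fin.lastCases ?_ (fun l => ?_) j
        · intro _; rfl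
        · intro h
          simp only [av, Fin.lastCases_last, Fin.lastCases_castSucc] at h
          exact absurd h.symm (hae l)
        · intro h
          simp only [av, Fin.lastCases_last, Fin.lastCases_castSucc] at h
          exact absurd h (hae k)
        · intro h
          simp only [av, Fin.lastCases_castSucc] at h
          rw [e.injective h]
      have h5 := hI K N (q n0) (fun i => q (av i)) (fun i => ((y (av i) : 𝓞 K) : K)) hinj' hdetK
        P hPdeg (fun i => by
          simp only [av, Fin.lastCases_castSucc]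
          exact hPe i)
      simpa [av] using h5
  -- now `g(X, P(X))` has too many roots
  have hFdeg : ((toK K g).eval P).natDegree ≤ degBoundK g N := by
    refine natDegree_eval_toK_le g N P ?_
    by_cases hP0 : P = 0
    · simp [hP0]
    · rw [degree_eq_natDegree hP0] at hPdeg
      have : P.natDegree < N := by exact_mod_cast hPdeg
      omega
  refine hg P (Polynomial.eq_zero_of_natDegree_lt_card_of_eval_eq_zero' ((toK K g).eval P)
    (S.image q) ?_ ?_)
  · intro z hz
    obtain ⟨a, ha, rfl⟩ := Finset.mem_image.1 hz
    have h6 := eval_toK g (a0 + (a : 𝓞 K)) (y a) P (by rw [hq]; exact hall a ha)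
    rw [hq, hroot a ha] at h6
    rw [h6]
    rfl
  · rw [Finset.card_image_of_injective _ hqinj]
    omega

end Pool.Agent.HIK.H10
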